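import Pool.Agent.AEC.StmtsB

/-!
# Squad AEC, TPB: from coherent diagrams to a template
-/

open FirstOrder FirstOrder.Language Cardinal Set

universe u

namespace Pool.Agent.AEC.H82

open Pool.Agent.AEC Pool.Agent.AEC.AEC

section tpb

variable {L : FirstOrder.Language.{u, u}} {κ : Cardinal.{u}} {K : AEC L κ}

/-- The position `aP`. -/
def mv {X : Type u} {m n : ℕ} (a : Fin m ↪o Fin n) (P : Pt X m) : Pt X n :=
  (P.1.map a.toEmbedding, P.2)

theorem val_mv {A : K.Mod} (T : K.Sys A) {m n : ℕ} (e : Fin n ↪ A.α) (a : Fin m ↪o Fin n)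
    (P : Pt κ.out m) : T.val (a.toEmbedding.trans e) P = T.val e (mv a P) := by
  unfold Sys.val mv
  rw [Finset.map_map]

/-- All elements at positions belong to the strong substructure of the whole tuple. -/
theorem val_mem {A : K.Mod} (T : K.Sys A) {n : ℕ} (e : Fin n ↪ A.α) (P : Pt κ.out n) :
    T.val e P ∈ T.S (Finset.univ.map e) := by
  have h1 : T.val e P ∈ (T.S (P.1.map e) : Set A.α) := by
    rw [← T.range]
    exact ⟨P.2, rfl⟩
  exact T.mono (Finset.map_subset_map.2 (Finset.subset_univ _)) h1

/-- The objects. -/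
def ob {A : K.Mod} (T : K.Sys A) {n : ℕ} (e : Fin n ↪ A.α) : K.Mod :=
  AEC.sub A (T.S (Finset.univ.map e)) (T.emb _)

/-- The element of the object at a position. -/
def el {A : K.Mod} (T : K.Sys A) {n : ℕ} (e : Fin n ↪ A.α) (P : Pt κ.out n) : (ob T e).α :=
  (⟨T.val e P, val_mem T e P⟩ : T.S (Finset.univ.map e))

/-- The underlying element. -/
def cv {A : K.Mod} (T : K.Sys A) {n : ℕ} (e : Fin n ↪ A.α) (x : (ob T e).α) : A.α :=
  Subtype.val (p := fun y => y ∈ T.S (Finset.univ.map e)) x

theorem cv_inj {A : K.Mod} (T : K.Sys A) {n : ℕ} (e : Fin n ↪ A.α) {x y : (ob T e).α}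
    (h : cv T e x = cv T e y) : x = y := Subtype.ext h

theorem el_surj {A : K.Mod} (T : K.Sys A) {n : ℕ} (e : Fin n ↪ A.α) (x : (ob T e).α) :
    ∃ i : κ.out, el T e (Finset.univ, i) = x := by
  have h1 : cv T e x ∈ (T.S (Finset.univ.map e) : Set A.α) :=
    Subtype.property (p := fun y => y ∈ T.S (Finset.univ.map e)) x
  rw [← T.range] at h1
  obtain ⟨i, hi⟩ := h1
  exact ⟨i, cv_inj T e hi⟩

theorem exists_map {A B : K.Mod} (T : K.Sys A) (S : K.Sys B) {m n : ℕ} (e : Fin m ↪ A.α)
    (f : Fin n ↪ B.α) (a : Fin m ↪o Fin n)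
    (h : T.pat e = S.pat (a.toEmbedding.trans f)) :
    ∃ F : K.Hom (ob T e) (ob S f), ∀ P : Pt κ.out m, F (el T e P) = el S f (mv a P) := by
  classical
  have heq : ∀ P Q : Pt κ.out m, T.val e P = T.val e Q ↔
      S.val f (mv a P) = S.val f (mv a Q) := by
    intro P Q
    have h1 := congrFun (congrFun (congrArg Pat.eq h) P) Q
    simp only [Sys.pat, val_mv] at h1
    exact iff_of_eq h1
  have hrel : ∀ (k : ℕ) (R : L.Relations k) (P : Fin k → Pt κ.out m),
      Structure.RelMap R (fun i => T.val e (P i)) ↔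
      Structure.RelMap R (fun i => S.val f (mv a (P i))) := by
    intro k R P
    have h1 := congrFun (congrFun (congrFun (congrArg Pat.rel h) k) R) P
    simp only [Sys.pat, val_mv] at h1
    exact iff_of_eq h1
  have hfn : ∀ (k : ℕ) (R : L.Functions k) (P : Fin k → Pt κ.out m) (Q : Pt κ.out m),
      (Structure.funMap R (fun i => T.val e (P i)) = T.val e Q) ↔
      (Structure.funMap R (fun i => S.val f (mv a (P i))) = S.val f (mv a Q)) := by
    intro k R P Q
    have h1 := congrFun (congrFun (congrFun (congrFun (congrArg Pat.fn h) k) R) P) Q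
    simp only [Sys.pat, val_mv] at h1
    exact iff_of_eq h1
  choose ix hix using el_surj T e
  have hix' : ∀ x : (ob T e).α, T.val e (Finset.univ, ix x) =
      cv T e x := fun x => congrArg (cv T e) (hix x)
  let G : (ob T e).α → B.α := fun x => S.val f (mv a (Finset.univ, ix x))
  have hG : ∀ P : Pt κ.out m, G (el T e P) = S.val f (mv a P) := by
    intro P
    apply (heq _ _).1
    exact hix' _
  let g : (ob T e).α ↪[L] B.α :=
    { toFun := G
      inj' := by
        intro x y hxy
        have h1 := (heq _ _).2 hxy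
        rw [hix', hix'] at h1
        exact cv_inj T e h1
      map_fun' := by
        intro k R x
        have h1 := (hfn k R (fun i => (Finset.univ, ix (x i)))
          (Finset.univ, ix (Structure.funMap R x))).1 (by
            simp only [hix']
            rfl)
        exact h1.symm
      map_rel' := by
        intro k R x
        have h1 := hrel k R (fun i => (Finset.univ, ix (x i)))
        simp only [hix'] at h1
        exact h1.symm }
  have hr : (g.toHom.range : Set B.α) =
      (S.S ((Finset.univ.map a.toEmbedding).map f) : Set B.α) := by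
    rw [← S.range]
    ext y
    constructor
    · rintro ⟨x, hx⟩
      exact ⟨ix x, hx⟩
    · rintro ⟨i, hi⟩
      refine ⟨el T e (Finset.univ, i), ?_⟩
      rw [← hi]
      exact hG _
  have hr' : g.toHom.range = S.S ((Finset.univ.map a.toEmbedding).map f) :=
    SetLike.coe_injective hr
  have h2 : K.emb g.toHom.range.subtype := by
    rw [hr']
    exact S.emb _
  have h3 : g = g.toHom.range.subtype.comp g.equivRange.toEmbedding := by
    ext x
    rfl
  have h4 : K.emb g := by
    rw [h3]
    exact K.comp (K.iso (ob T e).prop _) h2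
  obtain ⟨F, hF⟩ := Hom.exists_factor (A := ob T e) (B := ob S f) (C := B) ⟨g, h4⟩
    (subHom B (S.S (Finset.univ.map f)) (S.emb _))
    (fun x => ⟨el S f (mv a (Finset.univ, ix x)), rfl⟩)
  refine ⟨F, fun P => ?_⟩
  apply Subtype.ext
  exact (hF (el T e P)).trans (hG P)

end tpb

theorem tpb : TpbStmt.{u} := by
  intro L κ K p hp
  choose A T e h using hp
  have h0 : ∀ n, (T n).pat (e n) = p n := by
    intro n
    have h1 := h n n (RelEmbedding.refl _)
    exact h1
  have hex : ∀ m n (a : Fin m ↪o Fin n), ∃ F : K.Hom (ob (T m) (e m)) (ob (T n) (e n)),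
      ∀ P : Pt κ.out m, F (el (T m) (e m) P) = el (T n) (e n) (mv a P) := by
    intro m n a
    apply exists_map
    rw [h0, h n m a]
  choose F hF using hex
  refine ⟨⟨fun n => ob (T n) (e n), fun {m n} a => F m n a, ?_, ?_, ?_,
    el (T 1) (e 1) (Finset.univ, K.o), ?_⟩⟩
  · intro n a ha x
    obtain ⟨i, rfl⟩ := el_surj _ _ x
    rw [hF]
    congr 1
    unfold mv
    congr 1
    ext j
    simp only [Finset.mem_map, Finset.mem_univ, true_and]
    exact ⟨fun _ => trivial, fun _ => ⟨j, ha j⟩⟩
  · intro m n k a b c hc x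
    obtain ⟨i, rfl⟩ := el_surj _ _ x
    rw [hF, hF, hF]
    congr 1
    unfold mv
    congr 1
    rw [Finset.map_map]
    congr 1
    ext j
    exact congrArg Fin.val (hc j)
  · intro n
    have h1 : #(ob (T n) (e n)).α = #(Set.range ((T n).f (Finset.univ.map (e n)))) := by
      rw [(T n).range]
      rfl
    rw [h1]
    exact Cardinal.mk_range_le.trans (le_of_eq (Cardinal.mk_out κ))
  · intro a b ha hb hab
    rw [hF, hF] at hab
    have h1 := congrArg Subtype.val hab
    have h2 : ∀ c : Fin 1 ↪o Fin 2, (T 2).val (e 2) (mv c (Finset.univ, K.o)) = e 2 (c 0) := by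
      intro c
      unfold Sys.val mv
      have h3 : ((Finset.univ : Finset (Fin 1)).map c.toEmbedding).map (e 2) = {e 2 (c 0)} := by
        rw [Finset.univ_unique, Finset.map_singleton, Finset.map_singleton]
        rfl
      rw [h3]
      exact (T 2).sing _
    have h4 : (T 2).val (e 2) (mv a (Finset.univ, K.o)) =
      (T 2).val (e 2) (mv b (Finset.univ, K.o)) := h1
    rw [h2, h2, ha, hb] at h4
    exact absurd ((e 2).injective h4) (by decide)

end Pool.Agent.AEC.H82
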